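import Mathlib
import Pool.Agent.H61.HcA
import Pool.Agent.H61.HcB
import Pool.Agent.H61.HcDefs

set_option autoImplicit false

namespace Pool.Agent.Results.MP_b108d3_an.Yes

open Pool.Agent.H61.HcDefs Pool.Agent.H61.Hc Filter Topology Set
open scoped Classical

theorem result {V : Type} (G : SimpleGraph V) (o : V) (p : V → V) (h : IsRootedTree G o p)
    {X : Type} [NormedAddCommGroup X] [NormedSpace ℂ X] [CompleteSpace X] (ι : X →ₗ[ℂ] (V → ℂ))
    (hι : IsLittleLip G o p ι) (φ : V → V) (C : X →L[ℂ] X) (hC : ∀ x, ι (C x) = ι x ∘ φ) (l : ℂ)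
    (hl : ‖l‖ ≤ 1) (hx : ∃ x, HypercyclicVec (l • C) x) :
    ∃ M : Submodule ℂ X, IsClosed (M : Set X) ∧ ¬FiniteDimensional ℂ M ∧
      ∀ x ∈ M, x ≠ 0 → HypercyclicVec (l • C) x := by
  obtain ⟨x, hx⟩ := hx
  obtain ⟨s, s1, s2, s3, s4⟩ := seq h
  let ev : V → X →L[ℂ] ℂ := fun v =>
    ((LinearMap.proj v).comp ι).mkContinuous _ fun y => eval_le h hι y v
  let Y : Submodule ℂ X := ⨅ v ∈ (range s)ᶜ, LinearMap.ker (ev v : X →ₗ[ℂ] ℂ)
  have mY : ∀ y, y ∈ Y ↔ ∀ v, v ∉ range s → ι y v = 0 := fun y => by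
    simp only [Y, Submodule.mem_iInf, LinearMap.mem_ker]
    rfl
  have cY : IsClosed (Y : Set X) := by
    simp only [Y, Submodule.coe_iInf]
    exact isClosed_iInter fun v => isClosed_iInter fun _ => (ev v).isClosed_ker
  have dY : ∀ y ∈ Y, ∀ k, ι y (s k) - ι y (p (s k)) = ι y (s k) := fun y hy k => by
    rw [(mY y).1 hy (p (s k)) (by rintro ⟨m, e⟩; exact s4 _ _ e.symm), sub_zero]
  have he : ∀ k, ∃ e, ι e = Pi.single (s k) 1 := fun k => (hι.range _).2
    ((ev_iff fun _ => norm_nonneg _).2 fun ε e0 => ⟨G.dist o (s k) + 2, fun v hv => by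
      have a : v ≠ o := fun c => by simp [c] at hv
      have b := (h.parent v a).2
      rw [Pi.single_eq_of_ne (fun c => by rw [c] at hv; omega),
        Pi.single_eq_of_ne (fun c => by rw [c] at b; omega)]
      simpa using e0⟩)
  choose e he using he
  have eY : ∀ k, e k ∈ Y := fun k => (mY _).2 fun v hv => by
    rw [he, Pi.single_eq_of_ne fun c => hv ⟨k, c.symm⟩]
  have li : LinearIndependent ℂ fun k => (⟨e k, eY k⟩ : Y) :=
    .of_pairwise_dual_eq_zero_one _ (fun k => (ev (s k) : X →ₗ[ℂ] ℂ).comp Y.subtype)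
      (fun i j c => show ι (e j) (s i) = 0 by rw [he, Pi.single_eq_of_ne (s3.ne c)])
      fun i => show ι (e i) (s i) = 1 by rw [he, Pi.single_eq_same]
  have : Nontrivial X := ⟨e 0, 0, fun c => li.ne_zero 0 (Subtype.ext c)⟩
  have := cY.completeSpace_coe
  obtain ⟨Z, z1, z2⟩ := sub hx ((bdd_dense h hι).mono fun y hy => hy.elim fun B hB =>
    ⟨_, fun n => orbit_le hι hC hl n y hB⟩) Y.subtypeL (fun _ => le_rfl)
    (fun k => (ev (s k)).comp Y.subtypeL) (fun k => ContinuousLinearMap.opNorm_le_bound _ zero_le_one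
      fun y => by
        rw [one_mul]
        exact (congrArg norm (dY y y.2 k)).ge.trans (le_norm h hι y.1 (s1 k))) e (fun y ε e0 => by
      obtain ⟨N, hN⟩ := (ev_iff fun _ => norm_nonneg _).1 ((hι.range _).1 ⟨y.1, rfl⟩) (ε / 2)
        (by positivity)
      refine ⟨N, fun j hj n => (orbit_le hι hC hl (B := ε / 2) n _ fun v => ?_).trans_eq (by ring)⟩
      have a : ∀ k, ((ev (s k)).comp Y.subtypeL) y = ι y (s k) := fun _ => rfl
      simp only [map_sub, map_sum, map_smul, he, a, Pi.sub_apply, Finset.sum_apply, Pi.smul_apply]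
      by_cases c : v ∈ range s
      · obtain ⟨k, rfl⟩ := c
        have := hN (s k)
        rw [dY y y.2] at this
        by_cases d : k < j
        · simp [Pi.single_apply, s3.eq_iff, d, show 0 ≤ ε / 2 by positivity]
        · simpa [Pi.single_apply, s3.eq_iff, d] using (this (by have := s2 k; omega)).le
      · rw [Finset.sum_eq_zero fun k _ => by rw [Pi.single_eq_of_ne fun d => c ⟨k, d.symm⟩, smul_zero]]
        simp [(mY y).1 y.2 v c, show 0 ≤ ε / 2 by positivity])
    fun y hy => by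
      by_contra c
      push Not at c
      refine hy (Subtype.ext (hι.inj (funext fun v => ?_)))
      by_cases d : v ∈ range s
      · obtain ⟨k, rfl⟩ := d
        rw [ZeroMemClass.coe_zero, map_zero]
        exact c k
      · simpa using (mY y).1 y.2 v d
  have an : AntilipschitzWith 2 Z := Z.antilipschitz_of_bound z1
  refine ⟨LinearMap.range (Z : Y →ₗ[ℂ] X), an.isClosed_range Z.uniformContinuous, fun c => ?_, ?_⟩
  · have := (LinearEquiv.ofInjective (Z : Y →ₗ[ℂ] X) an.injective).symm.finiteDimensional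
    exact Module.Finite.not_linearIndependent_of_infinite _ li
  · rintro _ ⟨y, rfl⟩ c
    exact z2 y fun d => c (by simp [d])

end Pool.Agent.Results.MP_b108d3_an.Yes
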